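import Mathlib

/-!
# The rank-metric completion `M(F)` of `⋃ M_{2^n}(F)` and its invertible elements `A(F)`

For a field `F` we build the union `⋃ M_{2^n}(F)` along the diagonal doubling maps
`x ↦ diag(x, x)`, the normalized rank metric on it, the metric completion `M(F)` (a ring), and the
space `A(F)` of invertible elements of `M(F)` with the topology of the rank metric.
-/

namespace Pool.Agent.H35.RankCompletion

open Matrix Filter Topology

variable (F : Type*) [Field F]

/-- `M_{2^n}(F)`, the `2^n × 2^n` matrices over `F`. -/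
abbrev Mat (n : ℕ) := Matrix (Fin (2 ^ n)) (Fin (2 ^ n)) F

/-- Two consecutive blocks of `2^n` indices make up the `2^(n+1)` indices. -/
def blocks (n : ℕ) : Fin (2 ^ n) ⊕ Fin (2 ^ n) ≃ Fin (2 ^ (n + 1)) :=
  finSumFinEquiv.trans (finCongr (by rw [pow_succ, mul_two]))

/-- The diagonal doubling map `M_{2^n}(F) → M_{2^(n+1)}(F)`, `x ↦ diag(x, x)`. -/
def double (n : ℕ) : Mat F n →+* Mat F (n + 1) where
  toFun x := Matrix.reindex (blocks n) (blocks n) (Matrix.fromBlocks x 0 0 x)
  map_one' := by
    rw [Matrix.fromBlocks_one]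
    simp
  map_mul' x y := by
    have : Matrix.fromBlocks (x * y) 0 0 (x * y) =
        Matrix.fromBlocks x 0 0 x * Matrix.fromBlocks y 0 0 y := by
      rw [Matrix.fromBlocks_multiply]
      simp
    rw [this]
    simp only [Matrix.reindex_apply, Matrix.submatrix_mul_equiv]
  map_zero' := by
    rw [Matrix.fromBlocks_zero]
    simp
  map_add' x y := by
    have : Matrix.fromBlocks (x + y) 0 0 (x + y) =
        Matrix.fromBlocks x 0 0 x + Matrix.fromBlocks y 0 0 y := by
      rw [Matrix.fromBlocks_add]
      simp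
    rw [this]
    rfl

/-- The iterated doubling map `M_{2^n}(F) → M_{2^m}(F)` for `n ≤ m`. -/
def iter (n m : ℕ) (h : n ≤ m) : Mat F n →+* Mat F m :=
  Nat.leRecOn h (fun {k} (g : Mat F n →+* Mat F k) => (double F k).comp g) (RingHom.id _)

theorem iter_self (n : ℕ) (h : n ≤ n) (x : Mat F n) : iter F n n h x = x := by
  unfold iter
  rw [Nat.leRecOn_self]
  rfl

theorem iter_succ {n m : ℕ} (h : n ≤ m) (h' : n ≤ m + 1) (x : Mat F n) :
    iter F n (m + 1) h' x = double F m (iter F n m h x) := by
  unfold iter
  rw [Nat.leRecOn_succ h]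
  rfl

instance directedSystem : DirectedSystem (Mat F) (fun _ _ h => iter F _ _ h) where
  map_self n x := iter_self F n _ x
  map_map k j i hij hjk x := by
    induction k, hjk using Nat.le_induction with
    | base => rw [iter_self]
    | succ k hk ih => rw [iter_succ F hk, iter_succ F (hij.trans hk), ih]

/-- The union `⋃ M_{2^n}(F)` along the doubling maps: the direct limit of rings. -/
def MUnion : Type _ := DirectLimit (Mat F) (iter F)

noncomputable instance : Ring (MUnion F) := inferInstanceAs (Ring (DirectLimit (Mat F) (iter F)))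

/-- the element of the union given by a matrix -/
def mk (n : ℕ) (x : Mat F n) : MUnion F := (⟦⟨n, x⟩⟧ : DirectLimit (Mat F) (iter F))

variable {F}

/-- a product of submodules is the product of the modules -/
def prodE {V W : Type*} [AddCommGroup V] [Module F V] [AddCommGroup W] [Module F W]
    (p : Submodule F V) (q : Submodule F W) : (p.prod q) ≃ₗ[F] p × q where
  toFun x := (⟨x.1.1, x.2.1⟩, ⟨x.1.2, x.2.2⟩)
  invFun y := ⟨(y.1.1, y.2.1), ⟨y.1.2, y.2.2⟩⟩
  map_add' _ _ := rfl
  map_smul' _ _ := rfl
  left_inv _ := rfl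
  right_inv _ := rfl

theorem rank_fromBlocks_diag {m n : Type*} [Fintype m] [Fintype n]
    (a : Matrix m m F) (d : Matrix n n F) :
    (Matrix.fromBlocks a 0 0 d).rank = a.rank + d.rank := by
  classical
  have h1 : (Matrix.fromBlocks a 0 0 d).mulVecLin =
      (LinearEquiv.sumArrowLequivProdArrow m n F F).symm.toLinearMap ∘ₗ
        (LinearMap.prodMap a.mulVecLin d.mulVecLin) ∘ₗ
          (LinearEquiv.sumArrowLequivProdArrow m n F F).toLinearMap := by
    apply LinearMap.ext
    intro v
    funext i
    simp only [Matrix.mulVecLin_apply, Matrix.fromBlocks_mulVec]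
    cases i with
    | inl i => simp [LinearEquiv.sumArrowLequivProdArrow, Equiv.sumArrowEquivProdArrow]
    | inr i => simp [LinearEquiv.sumArrowLequivProdArrow, Equiv.sumArrowEquivProdArrow]
  unfold Matrix.rank
  rw [h1, LinearMap.range_comp, LinearEquiv.finrank_map_eq, LinearMap.range_comp,
    LinearEquiv.range, Submodule.map_top, LinearMap.range_prodMap,
    LinearEquiv.finrank_eq (prodE (LinearMap.range a.mulVecLin) (LinearMap.range d.mulVecLin)),
    Module.finrank_prod]

theorem rank_double (n : ℕ) (x : Mat F n) : (double F n x).rank = 2 * x.rank := by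
  change (Matrix.reindex (blocks n) (blocks n) (Matrix.fromBlocks x 0 0 x)).rank = _
  rw [Matrix.rank_reindex, rank_fromBlocks_diag, two_mul]

theorem rank_iter {n m : ℕ} (h : n ≤ m) (x : Mat F n) :
    ((iter F n m h x).rank : ℝ) / 2 ^ m = (x.rank : ℝ) / 2 ^ n := by
  induction m, h using Nat.le_induction with
  | base => rw [iter_self]
  | succ m h ih =>
    rw [iter_succ F h, rank_double, ← ih]
    push_cast
    rw [pow_succ]
    field_simp

/-- The normalized rank on the union: `rank(x) / 2^n` for `x ∈ M_{2^n}(F)`. -/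
noncomputable def rk : MUnion F → ℝ :=
  DirectLimit.lift (iter F) (fun n (x : Mat F n) => (x.rank : ℝ) / 2 ^ n)
    (fun _ _ h x => (rank_iter h x).symm)

theorem rk_mk (n : ℕ) (x : Mat F n) : rk (mk F n x) = (x.rank : ℝ) / 2 ^ n := rfl

theorem mk_iter {n m : ℕ} (h : n ≤ m) (x : Mat F n) : mk F m (iter F n m h x) = mk F n x :=
  DirectLimit.mk_apply (f := iter F) n m x h

theorem mk_add (n : ℕ) (x y : Mat F n) : mk F n (x + y) = mk F n x + mk F n y :=
  (DirectLimit.add_def (f := iter F) n x y).symm

theorem mk_mul (n : ℕ) (x y : Mat F n) : mk F n (x * y) = mk F n x * mk F n y :=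
  (DirectLimit.mul_def (f := iter F) n x y).symm

theorem mk_one (n : ℕ) : mk F n 1 = 1 := (DirectLimit.one_def (f := iter F) n).symm

theorem mk_zero (n : ℕ) : mk F n 0 = 0 := (DirectLimit.zero_def (f := iter F) n).symm

theorem mk_neg (n : ℕ) (x : Mat F n) : mk F n (-x) = - mk F n x :=
  (DirectLimit.neg_def (f := iter F) n x).symm

theorem exists_mk (z : MUnion F) : ∃ n x, z = mk F n x := DirectLimit.exists_eq_mk (iter F) z

theorem exists_mk₂ (z w : MUnion F) : ∃ n x y, z = mk F n x ∧ w = mk F n y :=
  DirectLimit.exists_eq_mk₂ (iter F) z w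

theorem exists_mk₃ (z w u : MUnion F) : ∃ n x y v, z = mk F n x ∧ w = mk F n y ∧ u = mk F n v :=
  DirectLimit.exists_eq_mk₃ (iter F) z w u

theorem rank_add_le' {n : Type*} [Fintype n] (x y : Matrix n n F) :
    (x + y).rank ≤ x.rank + y.rank := by
  unfold Matrix.rank
  rw [Matrix.mulVecLin_add]
  refine le_trans (Submodule.finrank_mono (t := LinearMap.range x.mulVecLin ⊔ LinearMap.range y.mulVecLin) ?_)
    (Submodule.finrank_add_le_finrank_add_finrank _ _)
  rintro _ ⟨v, rfl⟩
  exact Submodule.add_mem_sup ⟨v, rfl⟩ ⟨v, rfl⟩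

theorem rank_neg' {n : Type*} [Fintype n] (x : Matrix n n F) : (-x).rank = x.rank := by
  unfold Matrix.rank
  have : (-x).mulVecLin = -x.mulVecLin := by
    ext v : 1
    simp
  rw [this, LinearMap.range_neg]

theorem rank_eq_zero' {n : Type*} [Fintype n] [DecidableEq n] (x : Matrix n n F) (h : x.rank = 0) :
    x = 0 := by
  unfold Matrix.rank at h
  have h1 : LinearMap.range x.mulVecLin = ⊥ := Submodule.finrank_eq_zero.mp h
  have h2 : x.mulVecLin = 0 := LinearMap.range_eq_bot.mp h1
  ext i j
  have := congrFun (LinearMap.congr_fun h2 (Pi.single j 1)) i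
  simpa using this

/-- The normalized rank as a norm on the additive group of the union. -/
noncomputable def rankNorm : AddGroupNorm (MUnion F) where
  toFun := rk
  map_zero' := by
    rw [← mk_zero 0, rk_mk, Matrix.rank_zero]
    simp
  add_le' z w := by
    obtain ⟨n, x, y, rfl, rfl⟩ := exists_mk₂ z w
    rw [← mk_add, rk_mk, rk_mk, rk_mk, ← add_div]
    gcongr
    exact_mod_cast rank_add_le' x y
  neg' z := by
    obtain ⟨n, x, rfl⟩ := exists_mk z
    rw [← mk_neg, rk_mk, rk_mk, rank_neg']
  eq_zero_of_map_eq_zero' z hz := by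
    obtain ⟨n, x, rfl⟩ := exists_mk z
    rw [rk_mk, div_eq_zero_iff] at hz
    rcases hz with hz | hz
    · rw [rank_eq_zero' x (by exact_mod_cast hz), mk_zero]
    · exact absurd hz (by positivity)

/-- The metric `d(x, y) = rank(x - y) / 2^n` on the union. -/
noncomputable instance : NormedAddCommGroup (MUnion F) := rankNorm.toNormedAddCommGroup

theorem dist_eq_rk (z w : MUnion F) : dist z w = rk (z - w) := by
  rw [dist_eq_norm]
  rfl

theorem dist_mk (n : ℕ) (x y : Mat F n) :
    dist (mk F n x) (mk F n y) = ((x - y).rank : ℝ) / 2 ^ n := by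
  rw [dist_eq_rk, ← rk_mk, sub_eq_add_neg x y, mk_add, mk_neg, sub_eq_add_neg]

theorem rk_mul_le_right (a z : MUnion F) : rk (a * z) ≤ rk z := by
  obtain ⟨n, x, y, rfl, rfl⟩ := exists_mk₂ a z
  rw [← mk_mul, rk_mk, rk_mk]
  gcongr
  exact Matrix.rank_mul_le_right _ _

theorem rk_mul_le_left (a z : MUnion F) : rk (z * a) ≤ rk z := by
  obtain ⟨n, x, y, rfl, rfl⟩ := exists_mk₂ a z
  rw [← mk_mul, rk_mk, rk_mk]
  gcongr
  exact Matrix.rank_mul_le_left _ _

theorem dist_mul_mul_le (a b c d : MUnion F) : dist (a * b) (c * d) ≤ dist a c + dist b d := by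
  have h1 : dist (a * b) (c * b) ≤ dist a c := by
    rw [dist_eq_rk, dist_eq_rk, ← sub_mul]
    exact rk_mul_le_left _ _
  have h2 : dist (c * b) (c * d) ≤ dist b d := by
    rw [dist_eq_rk, dist_eq_rk, ← mul_sub]
    exact rk_mul_le_right _ _
  exact (dist_triangle _ (c * b) _).trans (add_le_add h1 h2)

theorem continuous_mul_rank : Continuous (fun p : MUnion F × MUnion F => p.1 * p.2) := by
  have : LipschitzWith 2 (fun p : MUnion F × MUnion F => p.1 * p.2) := by
    refine LipschitzWith.of_dist_le_mul ?_
    rintro ⟨a, b⟩ ⟨c, d⟩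
    refine (dist_mul_mul_le _ _ _ _).trans ?_
    rw [Prod.dist_eq]
    have h1 := le_max_left (dist a c) (dist b d)
    have h2 := le_max_right (dist a c) (dist b d)
    simp only [NNReal.coe_ofNat]
    linarith
  exact this.continuous

instance : IsTopologicalRing (MUnion F) where
  continuous_add := continuous_add
  continuous_mul := continuous_mul_rank
  continuous_neg := continuous_neg

variable (F)

/-- The ring `M(F)`: the metric completion of the union `⋃ M_{2^n}(F)` for the normalized rank
metric. -/
abbrev Compl : Type _ := UniformSpace.Completion (MUnion F)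

/-- The space `A(F)` of invertible elements of `M(F)`, with the topology of the rank metric. -/
abbrev A : Type _ := {x : Compl F // IsUnit x}

end Pool.Agent.H35.RankCompletion
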