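import Pool.Agent.H35.RankCompletion.Defs
import Pool.Agent.H35.RankRing.Contract

/-!
# The completed union is a model, hence its unit group is contractible
-/

namespace Pool.Agent.H35.RankCompletion

open Matrix Filter Topology

variable {F : Type*} [Field F]

theorem isRankMetric : H35.IsRankMetric (MUnion F) where
  add_right x y z := by
    rw [dist_eq_rk, dist_eq_rk, add_sub_add_right_eq_sub]
  mul_left_le a x y := by
    rw [dist_eq_rk, dist_eq_rk, ← mul_sub]
    exact rk_mul_le_right _ _
  mul_right_le a x y := by
    rw [dist_eq_rk, dist_eq_rk, ← sub_mul]
    exact rk_mul_le_left _ _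

theorem isRankMetric_compl : H35.IsRankMetric (Compl F) where
  add_right x y z := by
    induction x, y, z using UniformSpace.Completion.induction_on₃ with
    | hp => exact isClosed_eq (by fun_prop) (by fun_prop)
    | ih a b c =>
      rw [← UniformSpace.Completion.coe_add, ← UniformSpace.Completion.coe_add,
        UniformSpace.Completion.dist_eq, UniformSpace.Completion.dist_eq]
      exact isRankMetric.add_right _ _ _
  mul_left_le a x y := by
    induction a, x, y using UniformSpace.Completion.induction_on₃ with
    | hp => exact isClosed_le (by fun_prop) (by fun_prop)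
    | ih a b c =>
      rw [← UniformSpace.Completion.coe_mul, ← UniformSpace.Completion.coe_mul,
        UniformSpace.Completion.dist_eq, UniformSpace.Completion.dist_eq]
      exact isRankMetric.mul_left_le _ _ _
  mul_right_le a x y := by
    induction a, x, y using UniformSpace.Completion.induction_on₃ with
    | hp => exact isClosed_le (by fun_prop) (by fun_prop)
    | ih a b c =>
      rw [← UniformSpace.Completion.coe_mul, ← UniformSpace.Completion.coe_mul,
        UniformSpace.Completion.dist_eq, UniformSpace.Completion.dist_eq]
      exact isRankMetric.mul_right_le _ _ _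

/-- words of length `n + 1` split according to the last letter -/
def splitLast (n : ℕ) : (Fin (n + 1) → Bool) ≃ (Fin n → Bool) ⊕ (Fin n → Bool) where
  toFun w := if w (Fin.last n) then Sum.inr (fun j => w j.castSucc) else
    Sum.inl (fun j => w j.castSucc)
  invFun := Sum.elim (fun u => Fin.snoc (α := fun _ => Bool) u false)
    (fun u => Fin.snoc (α := fun _ => Bool) u true)
  left_inv w := by
    by_cases h : w (Fin.last n)
    · simp only [h, if_true, Sum.elim_inr]
      ext j
      refine Fin.lastCases ?_ (fun j => ?_) j
      · simp [h]
      · simp
    · simp only [h, if_false, Sum.elim_inl, Bool.false_eq_true]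
      ext j
      refine Fin.lastCases ?_ (fun j => ?_) j
      · simp [h]
      · simp
  right_inv u := by
    cases u with
    | inl u => simp
    | inr u => simp

/-- the identification of words of length `n` with `2^n` indices -/
def words : (n : ℕ) → (Fin n → Bool) ≃ Fin (2 ^ n)
  | 0 => Equiv.ofUnique _ (Fin 1)
  | n + 1 => (splitLast n).trans ((Equiv.sumCongr (words n) (words n)).trans (blocks n))

theorem double_reindex (n : ℕ) (x : H35.B F n) :
    double F n (Matrix.reindex (words n) (words n) x) =
      Matrix.reindex (words (n + 1)) (words (n + 1)) (H35.T Fin.castSucc x) := by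
  classical
  change Matrix.reindex (blocks n) (blocks n) _ = Matrix.reindex
    ((splitLast n).trans ((Equiv.sumCongr (words n) (words n)).trans (blocks n)))
    ((splitLast n).trans ((Equiv.sumCongr (words n) (words n)).trans (blocks n))) _
  ext i j
  obtain ⟨i, rfl⟩ := (blocks n).surjective i
  obtain ⟨j, rfl⟩ := (blocks n).surjective j
  simp only [Matrix.reindex_apply, Matrix.submatrix_apply, Equiv.symm_apply_apply,
    Equiv.symm_trans_apply]
  rw [H35.T_apply]
  have hlast : ∀ c : Fin (n + 1), c ∉ Set.range (Fin.castSucc : Fin n → Fin (n + 1)) ↔
      c = Fin.last n := by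
    intro c
    constructor
    · intro h
      refine Fin.lastCases (fun _ => rfl) (fun j h => absurd ⟨j, rfl⟩ h) c h
    · rintro rfl ⟨j, hj⟩
      exact absurd hj (Fin.castSucc_ne_last j)
  have hcond : ∀ a b : Fin (n + 1) → Bool,
      (∀ c, c ∉ Set.range (Fin.castSucc : Fin n → Fin (n + 1)) → a c = b c) ↔
        a (Fin.last n) = b (Fin.last n) := by
    intro a b
    constructor
    · intro h
      exact h _ ((hlast _).mpr rfl)
    · intro h c hc
      rw [(hlast c).mp hc]
      exact h
  cases i with
  | inl i =>
    cases j with
    | inl j =>
      rw [if_pos]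
      · simp only [Matrix.fromBlocks_apply₁₁, Matrix.submatrix_apply]
        congr 1 <;> · funext k; simp [splitLast]
      · rw [hcond]; simp [splitLast]
    | inr j =>
      rw [if_neg]
      · rfl
      · rw [hcond]; simp [splitLast]
  | inr i =>
    cases j with
    | inl j =>
      rw [if_neg]
      · rfl
      · rw [hcond]; simp [splitLast]
    | inr j =>
      rw [if_pos]
      · simp only [Matrix.fromBlocks_apply₂₂, Matrix.submatrix_apply]
        congr 1 <;> · funext k; simp [splitLast]
      · rw [hcond]; simp [splitLast]

/-- the canonical ring homomorphism `M_{2^n}(F) → ⋃ M_{2^n}(F)` -/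
def mkHom (n : ℕ) : Mat F n →+* MUnion F where
  toFun := mk F n
  map_one' := mk_one n
  map_mul' := mk_mul n
  map_zero' := mk_zero n
  map_add' := mk_add n

theorem mk_double (n : ℕ) (x : Mat F n) : mk F (n + 1) (double F n x) = mk F n x := by
  rw [← mk_iter (Nat.le_succ n) x, iter_succ F le_rfl, iter_self]

/-- the completed union is a model of the abstract situation -/
noncomputable def model : H35.Model F (Compl F) where
  rm := isRankMetric_compl
  ι n := UniformSpace.Completion.coeRingHom.comp
    ((mkHom n).comp (Matrix.reindexRingEquiv F (words n)).toRingHom)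
  ι_succ n x := by
    change ((mk F (n + 1) (Matrix.reindex (words (n + 1)) (words (n + 1)) (H35.T Fin.castSucc x)) :
      MUnion F) : Compl F) = ((mk F n (Matrix.reindex (words n) (words n) x) : MUnion F) : Compl F)
    rw [← double_reindex, mk_double]
  dist_ι n x y := by
    change dist ((mk F n (Matrix.reindex (words n) (words n) x) : MUnion F) : Compl F)
      ((mk F n (Matrix.reindex (words n) (words n) y) : MUnion F) : Compl F) = _
    rw [UniformSpace.Completion.dist_eq, dist_mk]
    have : Matrix.reindex (words n) (words n) x - Matrix.reindex (words n) (words n) y =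
      Matrix.reindex (words n) (words n) (x - y) := rfl
    rw [this, Matrix.rank_reindex]
  dense := by
    have h := (UniformSpace.Completion.denseRange_coe (α := MUnion F))
    refine Dense.mono ?_ h
    rintro _ ⟨z, rfl⟩
    obtain ⟨n, x, rfl⟩ := exists_mk z
    rw [Set.mem_iUnion]
    refine ⟨n, Matrix.reindex (words n).symm (words n).symm x, ?_⟩
    change ((mk F n (Matrix.reindex (words n) (words n)
      (Matrix.reindex (words n).symm (words n).symm x)) : MUnion F) : Compl F) = _
    congr 2
    ext i j
    simp

/-- the space `A(F)` is contractible -/
theorem contractibleSpace_A (F : Type*) [Field F] : ContractibleSpace (A F) :=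
  (model (F := F)).contractible

end Pool.Agent.H35.RankCompletion
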